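import Pool.Agent.Q226.SUF.Defs

/-!
# Integer 3SUM for sets of integers of absolute value at most `R` given by tagged presence bits
-/

set_option autoImplicit false

open Finset

namespace Pool.Agent.Q226.SUZ

/-- The integers of absolute value at most `R`. -/
abbrev Range (R : ℕ) : Type := Set.Icc (-(R : ℤ)) (R : ℤ)

/-- no integer has two tags -/
def OneTag {R K : ℕ} (x : Range R × Fin K → Bool) : Prop :=
  ∀ z k k', x (z, k) = true → x (z, k') = true → k = k'

open Classical in
/-- the set of the integers `z`, `|z| ≤ R`, for which one of the bits of the positions `(z, k)` is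
`1` -/
noncomputable def ints {R K : ℕ} (x : Range R × Fin K → Bool) : Finset ℤ :=
  (univ.filter fun z : Range R => ∃ k, x (z, k) = true).image fun z : Range R => (z : ℤ)

/-- `S` has three pairwise different elements with sum `0`. -/
def ZeroSum (S : Finset ℤ) : Prop :=
  ∃ a ∈ S, ∃ b ∈ S, ∃ c ∈ S, a ≠ b ∧ a ≠ c ∧ b ≠ c ∧ a + b + c = 0

end Pool.Agent.Q226.SUZ
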