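import Pool.Agent.Q226.SUZ.Defs
import Pool.Agent.Q226.SUF.Main

/-! # Integer 3SUM with unreliable negations -/

set_option autoImplicit false

open Finset Filter

namespace Pool.Agent.Q226.SUZ

open Pool.Agent.Q226.FL2 Pool.Agent.Q226.FLT
open Pool.Agent.Q226.SUF (LiteralCircuit val_mono)

/-- the number whose presence is copied to the position `p`: `5 z + 1` and `-(5 z + 2)` copy `z` -/
def src (p : ℤ) : Option ℤ :=
  if p % 5 = 1 ∧ 0 < p / 5 then some (p / 5)
  else if (-p) % 5 = 2 ∧ 0 < (-p) / 5 then some ((-p) / 5) else none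

/-- the instance made of `S` -/
def dbl (S : Finset ℤ) : Finset ℤ :=
  ((S.filter fun z => 0 < z).image fun z => 5 * z + 1) ∪
    ((S.filter fun z => 0 < z).image fun z => -(5 * z + 2))

lemma mem_dbl (S : Finset ℤ) (p : ℤ) : p ∈ dbl S ↔ ∃ z ∈ S, src p = some z := by
  unfold dbl src
  simp only [mem_union, mem_image, mem_filter]
  constructor
  · rintro (⟨z, ⟨h1, h2⟩, rfl⟩ | ⟨z, ⟨h1, h2⟩, rfl⟩)
    · refine ⟨z, h1, ?_⟩
      rw [if_pos ⟨by omega, by omega⟩]
      congr 1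
      omega
    · refine ⟨z, h1, ?_⟩
      rw [if_neg (by rintro ⟨h3, h4⟩; omega), if_pos ⟨by omega, by omega⟩]
      congr 1
      omega
  · rintro ⟨z, h1, h2⟩
    split_ifs at h2 with h3 h4
    · left
      rw [Option.some.injEq] at h2
      exact ⟨z, ⟨h1, by omega⟩, by omega⟩
    · right
      rw [Option.some.injEq] at h2
      exact ⟨z, ⟨h1, by omega⟩, by omega⟩

lemma card_dbl (S : Finset ℤ) : (dbl S).card ≤ 2 * S.card := by
  unfold dbl
  refine (card_union_le _ _).trans ?_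
  have h1 : (S.filter fun z => 0 < z).card ≤ S.card := card_filter_le _ _
  have h2 : ((S.filter fun z => 0 < z).image fun z => 5 * z + 1).card ≤
      (S.filter fun z => 0 < z).card := card_image_le
  have h3 : ((S.filter fun z => 0 < z).image fun z => -(5 * z + 2)).card ≤
      (S.filter fun z => 0 < z).card := card_image_le
  omega

lemma dbl_range (S : Finset ℤ) {A : ℝ} {R : ℕ} (hS : ∀ z ∈ S, 0 ≤ z ∧ (z : ℝ) ≤ A)
    (hR : 5 * A + 2 ≤ R) : ∀ p ∈ dbl S, -(R : ℤ) ≤ p ∧ p ≤ R := by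
  intro p hp
  unfold dbl at hp
  simp only [mem_union, mem_image, mem_filter] at hp
  rcases hp with ⟨z, ⟨h1, h2⟩, rfl⟩ | ⟨z, ⟨h1, h2⟩, rfl⟩
  · have h3 : 5 * (z : ℝ) + 2 ≤ R := by linarith [(hS z h1).2]
    have h4 : 5 * z + 2 ≤ (R : ℤ) := by exact_mod_cast h3
    constructor <;> omega
  · have h3 : 5 * (z : ℝ) + 2 ≤ R := by linarith [(hS z h1).2]
    have h4 : 5 * z + 2 ≤ (R : ℤ) := by exact_mod_cast h3
    constructor <;> omega

lemma zeroSum_dbl (S : Finset ℤ) (hS : ∀ z ∈ S, 0 ≤ z) :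
    ZeroSum (dbl S) ↔ ∃ a ∈ S, ∃ b ∈ S, ∃ c ∈ S, a ≠ b ∧ a ≠ c ∧ b ≠ c ∧ a + b = c := by
  have hmem : ∀ p, p ∈ dbl S ↔ (∃ z ∈ S, 0 < z ∧ p = 5 * z + 1) ∨
      (∃ z ∈ S, 0 < z ∧ p = -(5 * z + 2)) := by
    intro p
    unfold dbl
    simp only [mem_union, mem_image, mem_filter]
    constructor
    · rintro (⟨z, ⟨h1, h2⟩, rfl⟩ | ⟨z, ⟨h1, h2⟩, rfl⟩)
      · exact Or.inl ⟨z, h1, h2, rfl⟩
      · exact Or.inr ⟨z, h1, h2, rfl⟩
    · rintro (⟨z, h1, h2, rfl⟩ | ⟨z, h1, h2, rfl⟩)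
      · exact Or.inl ⟨z, ⟨h1, h2⟩, rfl⟩
      · exact Or.inr ⟨z, ⟨h1, h2⟩, rfl⟩
  constructor
  · rintro ⟨p, hp, q, hq, r, hr, h1, h2, h3, h4⟩
    rw [hmem] at hp hq hr
    rcases hp with ⟨a, ha, a0, rfl⟩ | ⟨a, ha, a0, rfl⟩ <;>
    rcases hq with ⟨b, hb, b0, rfl⟩ | ⟨b, hb, b0, rfl⟩ <;>
    rcases hr with ⟨c, hc, c0, rfl⟩ | ⟨c, hc, c0, rfl⟩
    · omega
    · exact ⟨a, ha, b, hb, c, hc, by omega, by omega, by omega, by omega⟩
    · exact ⟨a, ha, c, hc, b, hb, by omega, by omega, by omega, by omega⟩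
    · omega
    · exact ⟨b, hb, c, hc, a, ha, by omega, by omega, by omega, by omega⟩
    · omega
    · omega
    · omega
  · rintro ⟨a, ha, b, hb, c, hc, h1, h2, h3, h4⟩
    have a0 := hS a ha
    have b0 := hS b hb
    refine ⟨5 * a + 1, (hmem _).2 (Or.inl ⟨a, ha, by omega, rfl⟩), 5 * b + 1,
      (hmem _).2 (Or.inl ⟨b, hb, by omega, rfl⟩), -(5 * c + 2),
      (hmem _).2 (Or.inr ⟨c, hc, by omega, rfl⟩), by omega, by omega, by omega, by omega⟩

variable {R K : ℕ}

/-- the arguments after the substitution -/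
def ar' (C : LiteralCircuit (Range R × Fin K)) (t : Range R → Fin K) (i : Fin C.s)
    (j : Fin (C.w i)) : ℤ ⊕ Fin C.s :=
  Sum.elim (fun p => Sum.elim (fun z : Range R => Sum.inl ((src (z : ℤ)).getD 0))
    (fun _ => Sum.inl 0) (rsub1 t p)) Sum.inr (C.a i j)

open Classical in
/-- the operations after the substitution -/
noncomputable def op' (C : LiteralCircuit (Range R × Fin K)) (t : Range R → Fin K)
    (i : Fin C.s) (z : Fin (C.w i) → ℝ) : ℝ :=
  C.op i fun j => Sum.elim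
    (fun p => Sum.elim (fun z1 : Range R => if (src (z1 : ℤ)).isSome then z j else 0)
      (fun b => if b = true then (1 : ℝ) else 0) (rsub1 t p))
    (fun _ => z j) (C.a i j)

/-- the bit copied to `z` -/
def cpy (x : ℤ → Bool) (z : Range R) : Bool := (src (z : ℤ)).elim false x

/-- the values after the substitution -/
def val' (C : LiteralCircuit (Range R × Fin K)) (t : Range R → Fin K) (x : ℤ → Bool) :
    Fin C.s → ℝ :=
  C.val (rl1 t (cpy x))

lemma ar'_earlier (C : LiteralCircuit (Range R × Fin K)) (t : Range R → Fin K)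
    (i : Fin C.s) (j : Fin (C.w i)) (k : Fin C.s) (h : ar' C t i j = Sum.inr k) : k < i := by
  unfold ar' at h
  rcases hc : C.a i j with p | m
  · rw [hc, Sum.elim_inl] at h
    rcases hr : rsub1 t p with z | b
    · rw [hr, Sum.elim_inl] at h
      exact absurd h (by simp)
    · rw [hr, Sum.elim_inr] at h
      exact absurd h (by simp)
  · rw [hc, Sum.elim_inr, Sum.inr.injEq] at h
    rw [← h]
    exact C.earlier i j m hc

lemma op'_mono (C : LiteralCircuit (Range R × Fin K)) (t : Range R → Fin K)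
    (i : Fin C.s) : Monotone (op' C t i) := by
  intro z z' h
  unfold op'
  refine (C.mono i).2 fun j => ?_
  show Sum.elim _ _ (C.a i j) ≤ Sum.elim _ _ (C.a i j)
  rcases C.a i j with p | m
  · simp only [Sum.elim_inl]
    rcases rsub1 t p with z1 | b
    · simp only [Sum.elim_inl]
      by_cases hs : (src (z1 : ℤ)).isSome
      · rw [if_pos hs, if_pos hs]
        exact h j
      · rw [if_neg hs, if_neg hs]
    · exact le_rfl
  · exact h j

lemma val'_spec (C : LiteralCircuit (Range R × Fin K)) (t : Range R → Fin K)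
    (x : ℤ → Bool) (i : Fin C.s) :
    val' C t x i = op' C t i (fun j => Sum.elim (Pool.Agent.H560R2.bit x) (val' C t x)
      (ar' C t i j)) := by
  unfold val' op' ar'
  rw [C.spec]
  refine congrArg (C.op i) (funext fun j => ?_)
  beta_reduce
  generalize C.a i j = c
  rcases c with p | m
  · simp only [Sum.elim_inl]
    have h1 : rl1 t (cpy x) p = Sum.elim (cpy x) id (rsub1 t p) := by
      rw [← sval_rsub1]
      rfl
    rw [h1]
    generalize rsub1 t p = r
    rcases r with z1 | b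
    · simp only [Sum.elim_inl]
      unfold cpy Pool.Agent.H560R2.bit
      by_cases hs : (src (z1 : ℤ)).isSome
      · obtain ⟨m, hm⟩ := Option.isSome_iff_exists.1 hs
        simp [hm]
      · have hm : src (z1 : ℤ) = none := Option.not_isSome_iff_eq_none.1 hs
        simp [hm]
    · rfl
  · rfl

lemma oneTag_host (t : Range R → Fin K) (M : Range R → Bool) : OneTag (host t M) := by
  intro e k k' h h'
  unfold host at h h'
  simp only [Bool.and_eq_true, decide_eq_true_eq] at h h'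
  rw [h.2, h'.2]

lemma ints_host (t : Range R → Fin K) (S : Finset ℤ)
    (hS : ∀ p ∈ dbl S, -(R : ℤ) ≤ p ∧ p ≤ R) :
    ints (host t (cpy fun z => decide (z ∈ S))) = dbl S := by
  classical
  ext z
  unfold ints host
  simp only [mem_image, mem_filter, mem_univ, true_and, Bool.and_eq_true, decide_eq_true_eq,
    exists_and_left, exists_eq, and_true]
  have key : ∀ p : Range R, cpy (fun z => decide (z ∈ S)) p = true ↔ (p : ℤ) ∈ dbl S := by
    intro p
    rw [mem_dbl]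
    unfold cpy
    rcases hs : src (p : ℤ) with _ | m
    · simp
    · simp
  constructor
  · rintro ⟨z', h1, rfl⟩
    exact (key z').1 h1
  · intro h
    exact ⟨⟨z, hS z h⟩, (key ⟨z, hS z h⟩).2 h, rfl⟩

lemma asym (t b : ℝ) (ht : 0 ≤ t) (ht2 : t < 2) (hb : 0 < b) :
    ∀ᶠ n : ℕ in atTop, (n : ℝ) ^ t ≤ ((n / 2 : ℕ) : ℝ) ^ ((t + 2) / 2) ∧
      5 * ((n / 2 : ℕ) : ℝ) ^ (1 + b / 2) + 2 ≤ (n : ℝ) ^ (1 + b) := by
  have h1 : ∀ᶠ n : ℕ in atTop, (3 : ℝ) ^ ((t + 2) / 2) ≤ (n : ℝ) ^ ((2 - t) / 2) :=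
    ((tendsto_rpow_atTop (by linarith : (0 : ℝ) < (2 - t) / 2)).comp
      tendsto_natCast_atTop_atTop).eventually_ge_atTop _
  have h2 : ∀ᶠ n : ℕ in atTop, (7 : ℝ) ≤ (n : ℝ) ^ (b / 2) :=
    ((tendsto_rpow_atTop (by linarith : (0 : ℝ) < b / 2)).comp
      tendsto_natCast_atTop_atTop).eventually_ge_atTop _
  filter_upwards [h1, h2, eventually_ge_atTop 3] with n h1 h2 h3
  have hn : (3 : ℝ) ≤ n := by exact_mod_cast h3
  have hn0 : (0 : ℝ) < n := by linarith
  have h4 : (n : ℝ) / 3 ≤ ((n / 2 : ℕ) : ℝ) := by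
    have h5 : n ≤ 3 * (n / 2) := by omega
    have h6 : (n : ℝ) ≤ 3 * ((n / 2 : ℕ) : ℝ) := by exact_mod_cast h5
    linarith
  have h4' : ((n / 2 : ℕ) : ℝ) ≤ n := by exact_mod_cast Nat.div_le_self n 2
  constructor
  · have h5 : ((n : ℝ) / 3) ^ ((t + 2) / 2) ≤ ((n / 2 : ℕ) : ℝ) ^ ((t + 2) / 2) :=
      Real.rpow_le_rpow (by positivity) h4 (by linarith)
    refine le_trans ?_ h5
    rw [Real.div_rpow hn0.le (by norm_num), le_div_iff₀ (by positivity)]
    have h6 : (n : ℝ) ^ ((t + 2) / 2) = (n : ℝ) ^ t * (n : ℝ) ^ ((2 - t) / 2) := by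
      rw [← Real.rpow_add hn0]
      congr 1
      ring
    rw [h6]
    exact mul_le_mul_of_nonneg_left h1 (by positivity)
  · have h5 : ((n / 2 : ℕ) : ℝ) ^ (1 + b / 2) ≤ (n : ℝ) ^ (1 + b / 2) :=
      Real.rpow_le_rpow (Nat.cast_nonneg _) h4' (by linarith)
    have h6 : (n : ℝ) ^ (1 + b) = (n : ℝ) ^ (1 + b / 2) * (n : ℝ) ^ (b / 2) := by
      rw [← Real.rpow_add hn0]
      congr 1
      ring
    have h7 : (1 : ℝ) ≤ (n : ℝ) ^ (1 + b / 2) := Real.one_le_rpow (by linarith) (by linarith)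
    rw [h6]
    have h8 : (n : ℝ) ^ (1 + b / 2) * 7 ≤ (n : ℝ) ^ (1 + b / 2) * (n : ℝ) ^ (b / 2) :=
      mul_le_mul_of_nonneg_left h2 (by positivity)
    linarith

theorem main (t b : ℝ) (ht : 0 ≤ t) (ht2 : t < 2) (hb : 0 < b) :
    ∀ᶠ n : ℕ in atTop, ∀ R D K : ℕ, (n : ℝ) ^ (1 + b) ≤ R → 1 ≤ D →
      D * Real.log (40 * (2 * R + 1)) ≤ K →
      ∀ (Ω : Type) [Fintype Ω] [Nonempty Ω] (C : Ω → LiteralCircuit (Range R × Fin K)),
      (∀ ω, ((C ω).s : ℝ) ≤ (n : ℝ) ^ t) →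
      ∃ x : Range R × Fin K → Bool, OneTag x ∧ (ints x).card ≤ n ∧
        ((ZeroSum (ints x) ∧ faultyProbability (fun ω y => (C ω).Accepts y) D x < 2 / 3) ∨
        (¬ ZeroSum (ints x) ∧ 1 / 3 < probability (fun ω y => (C ω).Accepts y) x)) := by
  classical
  obtain ⟨a, ha, n0, hmain⟩ := Pool.Agent.H560R2.sum_hard 0 ((t + 2) / 2) (b / 2) le_rfl
    (by linarith) (by linarith) (by linarith)
  have htd : Tendsto (fun n : ℕ => n / 2) atTop atTop := Nat.tendsto_div_const_atTop two_ne_zero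
  filter_upwards [htd.eventually (eventually_ge_atTop n0), htd.eventually (HLT.small_rpow ha),
    asym t b ht ht2 hb] with n hn hsmall hasym
  obtain ⟨hst, hrg⟩ := hasym
  obtain ⟨Λ, hΛ, hΛne, yes, no, hyes, hno, hadv⟩ := hmain (n / 2) hn
  intro R D K hR hD hK Ω _ _ C hC
  by_contra hcon
  push Not at hcon
  have hDR : (1 : ℝ) ≤ D := by exact_mod_cast hD
  have hcard : Fintype.card (Range R) = 2 * R + 1 := by
    rw [Fintype.card_ofFinset, Int.card_Icc]
    omega
  have hcard0 : 0 < Fintype.card (Range R) := by rw [hcard]; omega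
  have hK' : D * Real.log (2 * Fintype.card (Range R) / (1 / 20)) ≤ K := by
    rw [hcard]
    push_cast
    have : (2 * (2 * (R : ℝ) + 1) / (1 / 20)) = 40 * (2 * R + 1) := by ring
    rw [this]
    exact hK
  have hK0 : 0 < K := by
    have h0 : (0 : ℝ) ≤ R := Nat.cast_nonneg _
    have h1 : 0 < Real.log (40 * (2 * R + 1)) := Real.log_pos (by linarith)
    have h3 : (0 : ℝ) < K := lt_of_lt_of_le (by positivity) hK
    exact_mod_cast h3
  have : Nonempty (Fin K) := ⟨⟨0, hK0⟩⟩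
  have hpos : (0 : ℝ) < Fintype.card (Ω × (Range R → Fin K)) := by
    exact_mod_cast Fintype.card_pos
  have hmono : ∀ (ω : Ω) (y z : (Range R × Fin K) × Bool → Bool), y ≤ z →
      (C ω).Accepts y → (C ω).Accepts z := by
    intro ω y z hyz h
    exact le_trans h (val_mono (C ω) hyz _ (C ω).out rfl)
  have hrange : ∀ S : Finset ℤ, (∀ z ∈ S, 0 ≤ z ∧ (z : ℝ) ≤ ((n / 2 : ℕ) : ℝ) ^ (1 + 0 + b / 2)) →
      ∀ p ∈ dbl S, -(R : ℤ) ≤ p ∧ p ≤ R := by
    intro S hS
    refine dbl_range S hS ?_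
    rw [add_zero]
    linarith
  have hcardS : ∀ S : Finset ℤ, S.card ≤ n / 2 → (dbl S).card ≤ n := by
    intro S hS
    have := card_dbl S
    omega
  -- the number of accepting members
  set acc : Finset ℤ → Ω × (Range R → Fin K) → ℝ := fun S o =>
    if (C o.1).τ ≤ val' (C o.1) o.2 (fun z => decide (z ∈ S)) (C o.1).out then 1 else 0 with hacc
  have hy : ∀ l, (2 / 3 - 1 / 20 : ℝ) * Fintype.card (Ω × (Range R → Fin K)) ≤
      ∑ o, acc (yes l) o := by
    intro l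
    have h1 := one_yes (η := 1 / 20) hD hK0 (by norm_num) hcard0 hK'
      (fun ω y => (C ω).Accepts y) hmono
      (cpy fun z => decide (z ∈ yes l)) (A := 2 / 3 - 1 / 20)
      (fun t => by
        have h2 := hcon _ (oneTag_host t (cpy fun z => decide (z ∈ yes l)))
        rw [ints_host t _ (hrange _ (hyes l).2.1)] at h2
        have h3 := (h2 (hcardS _ (hyes l).1)).1
          ((zeroSum_dbl _ fun z hz => ((hyes l).2.1 z hz).1).2 (hyes l).2.2)
        linarith)
    refine h1.trans (le_of_eq ?_)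
    rw [Finset.card_filter]
    push_cast
    rfl
  have hn' : ∀ l, ∑ o, acc (no l) o ≤
      1 / 3 * Fintype.card (Ω × (Range R → Fin K)) := by
    intro l
    have h1 := one_no hK0 (fun ω y => (C ω).Accepts y) hmono
      (cpy fun z => decide (z ∈ no l)) (B := 1 / 3)
      (fun t => by
        have h2 := hcon _ (oneTag_host t (cpy fun z => decide (z ∈ no l)))
        rw [ints_host t _ (hrange _ (hno l).2.1)] at h2
        exact (h2 (hcardS _ (hno l).1)).2 fun h =>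
          (hno l).2.2 ((zeroSum_dbl _ fun z hz => ((hno l).2.1 z hz).1).1 h))
    refine le_trans (le_of_eq ?_) h1
    rw [Finset.card_filter]
    push_cast
    rfl
  -- each member has a small advantage
  have hL0 : (0 : ℝ) < Fintype.card Λ := by exact_mod_cast Fintype.card_pos
  have hone : ∀ o : Ω × (Range R → Fin K), ∑ l, acc (yes l) o ≤
      ∑ l, acc (no l) o + ((n / 2 : ℕ) : ℝ) ^ (-a) * Fintype.card Λ := by
    intro o
    have h1 := hadv (C o.1).s ∅ (C o.1).w (ar' (C o.1) o.2) (op' (C o.1) o.2) (fun _ _ => 0)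
      (val' (C o.1) o.2) (C o.1).out (C o.1).τ (ar'_earlier (C o.1) o.2)
      (fun i _ => ⟨((C o.1).mono i).1, op'_mono (C o.1) o.2 i⟩)
      (fun i hi => absurd hi (Finset.notMem_empty i)) (val'_spec (C o.1) o.2)
      (by simpa using (hC o.1).trans hst) (by simp)
    rw [div_add' _ _ _ hL0.ne', div_le_div_iff_of_pos_right hL0, Finset.card_filter,
      Finset.card_filter] at h1
    push_cast at h1
    exact h1
  have hsum : ∑ l, ∑ o, acc (yes l) o ≤ ∑ l, ∑ o, acc (no l) o +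
      Fintype.card (Ω × (Range R → Fin K)) * (((n / 2 : ℕ) : ℝ) ^ (-a) * Fintype.card Λ) := by
    rw [Finset.sum_comm, Finset.sum_comm (s := (univ : Finset Λ)) (t := univ)]
    have h1 : (Fintype.card (Ω × (Range R → Fin K)) : ℝ) *
        (((n / 2 : ℕ) : ℝ) ^ (-a) * Fintype.card Λ) =
        ∑ _o : Ω × (Range R → Fin K), ((n / 2 : ℕ) : ℝ) ^ (-a) * Fintype.card Λ := by
      rw [sum_const, card_univ, nsmul_eq_mul]
    rw [h1, ← sum_add_distrib]
    exact sum_le_sum fun o _ => hone o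
  have h2 : (Fintype.card Λ : ℝ) * ((2 / 3 - 1 / 20 : ℝ) *
      Fintype.card (Ω × (Range R → Fin K))) ≤ ∑ l, ∑ o, acc (yes l) o := by
    have h3 : (Fintype.card Λ : ℝ) * ((2 / 3 - 1 / 20 : ℝ) *
      Fintype.card (Ω × (Range R → Fin K))) = ∑ _l : Λ, (2 / 3 - 1 / 20 : ℝ) *
      Fintype.card (Ω × (Range R → Fin K)) := by
      rw [sum_const, card_univ, nsmul_eq_mul]
    rw [h3]
    exact sum_le_sum fun l _ => hy l
  have h3 : ∑ l, ∑ o, acc (no l) o ≤ (Fintype.card Λ : ℝ) * (1 / 3 *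
      Fintype.card (Ω × (Range R → Fin K))) := by
    have h4 : (Fintype.card Λ : ℝ) * (1 / 3 *
      Fintype.card (Ω × (Range R → Fin K))) = ∑ _l : Λ, (1 / 3 : ℝ) *
      Fintype.card (Ω × (Range R → Fin K)) := by
      rw [sum_const, card_univ, nsmul_eq_mul]
    rw [h4]
    exact sum_le_sum fun l _ => hn' l
  set W : ℝ := Fintype.card Λ * Fintype.card (Ω × (Range R → Fin K)) with hW
  have hWpos : 0 < W := by positivity
  have h5 : (2 / 3 - 1 / 20 : ℝ) * W ≤ 1 / 3 * W + ((n / 2 : ℕ) : ℝ) ^ (-a) * W := by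
    have e1 : (Fintype.card Λ : ℝ) * ((2 / 3 - 1 / 20 : ℝ) *
      Fintype.card (Ω × (Range R → Fin K))) = (2 / 3 - 1 / 20 : ℝ) * W := by rw [hW]; ring
    have e2 : (Fintype.card Λ : ℝ) * (1 / 3 * Fintype.card (Ω × (Range R → Fin K))) =
      1 / 3 * W := by rw [hW]; ring
    have e3 : (Fintype.card (Ω × (Range R → Fin K)) : ℝ) *
        (((n / 2 : ℕ) : ℝ) ^ (-a) * Fintype.card Λ) = ((n / 2 : ℕ) : ℝ) ^ (-a) * W := by
      rw [hW]; ring
    rw [← e1, ← e2, ← e3]
    linarith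
  have h6 : ((n / 2 : ℕ) : ℝ) ^ (-a) * W < 1 / 10 * W := mul_lt_mul_of_pos_right hsmall hWpos
  linarith

end Pool.Agent.Q226.SUZ
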